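import Pool.Agent.Lib.MP_1d59ee_co.Main

set_option autoImplicit false

namespace Pool.Agent.Results.MP_1d59ee_co.LowClique

open SimpleGraph

/-- Let `d ≥ 5` and let `G` be a finite non-bipartite graph of maximum degree at most `d`.  If `G` has
no triangle, or `G` is 3-colourable, or `d ≥ 8` and `G` has no clique on `max 6 (d - 6)` vertices,
then some finite graph of maximum degree at most `d` is incomparable with `G`. -/
theorem result :
    ∀ d : ℕ, 5 ≤ d →
      ∀ (V : Type) [Finite V] (G : SimpleGraph V),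
        (∀ v : V, (G.neighborSet v).ncard ≤ d) →
        IsEmpty (G →g (⊤ : SimpleGraph (Fin 2))) →
        (IsEmpty ((⊤ : SimpleGraph (Fin 3)) →g G) ∨
          Nonempty (G →g (⊤ : SimpleGraph (Fin 3))) ∨
          (8 ≤ d ∧ IsEmpty ((⊤ : SimpleGraph (Fin (max 6 (d - 6)))) →g G))) →
        ∃ (W : Type) (_ : Finite W) (H : SimpleGraph W),
          (∀ w : W, (H.neighborSet w).ncard ≤ d) ∧
          IsEmpty (G →g H) ∧ IsEmpty (H →g G) := by
  intro d hd V _ G hG hb hc
  rcases hc with h3 | hcol | ⟨h8, hk⟩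
  · exact Pool.Agent.MP1d59.main_triFree d (by omega) G hb h3
  · exact Pool.Agent.MP1d59.main_threeCol d (by omega) G hb hcol
  · by_cases h3 : IsEmpty ((⊤ : SimpleGraph (Fin 3)) →g G)
    · exact Pool.Agent.MP1d59.main_triFree d (by omega) G hb h3
    · exact Pool.Agent.MP1d59.main_near d h8 G (not_isEmpty_iff.1 h3) hk

end Pool.Agent.Results.MP_1d59ee_co.LowClique
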