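import Pool.Agent.Lib.MP_1d59ee_co.Chain

set_option autoImplicit false

namespace Pool.Agent.Results.MP_1d59ee_co.SmallDegree

open SimpleGraph

/-- The question has a positive answer for the degree bounds `d = 3` and `d = 4`: every finite
non-bipartite graph `G` of maximum degree at most `d` that contains no `K_d` (so `G < K_d`) is
incomparable with some finite graph of maximum degree at most `d`. -/
theorem result :
    ∀ d : ℕ, (d = 3 ∨ d = 4) →
      ∀ (V : Type) [Finite V] (G : SimpleGraph V),
        (∀ v : V, (G.neighborSet v).ncard ≤ d) →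
        IsEmpty (G →g (⊤ : SimpleGraph (Fin 2))) →
        IsEmpty ((⊤ : SimpleGraph (Fin d)) →g G) →
        ∃ (W : Type) (_ : Finite W) (H : SimpleGraph W),
          (∀ w : W, (H.neighborSet w).ncard ≤ d) ∧
          IsEmpty (G →g H) ∧ IsEmpty (H →g G) := by
  rintro d (rfl | rfl) V _ G hG hb hk
  · exact Pool.Agent.MP1d59.main_three G hG hb hk
  · by_cases h3 : IsEmpty ((⊤ : SimpleGraph (Fin 3)) →g G)
    · exact Pool.Agent.MP1d59.main_triFree 4 le_rfl G hb h3
    · exact Pool.Agent.MP1d59.main_four G hG (not_isEmpty_iff.1 h3) hk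

end Pool.Agent.Results.MP_1d59ee_co.SmallDegree
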